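import Pool.Agent.TH722.K6.Gauss
import Pool.Agent.K7.H95.TP.Defs

/-!
MP_0d5435_pr, piece MOM: trace moments of Gaussian series of symmetric matrices.
-/

set_option autoImplicit false

open MeasureTheory ProbabilityTheory Filter Topology Matrix
open Pool.Agent.K7.H95.TP

namespace Pool.Agent.K7.H98.TP

/-! ### deterministic inequality -/

lemma exists_diag {N : ℕ} (X : Matrix (Fin N) (Fin N) ℝ) (hX : X.IsSymm) :
    ∃ (V : Matrix (Fin N) (Fin N) ℝ) (d : Fin N → ℝ), V * Vᵀ = 1 ∧ Vᵀ * V = 1 ∧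
      X = V * diagonal d * Vᵀ := by
  have hH : X.IsHermitian := by
    rw [Matrix.IsHermitian, Matrix.conjTranspose_eq_transpose_of_trivial]; exact hX
  refine ⟨(hH.eigenvectorUnitary : Matrix (Fin N) (Fin N) ℝ), hH.eigenvalues, ?_, ?_, ?_⟩
  · have := (Matrix.mem_unitaryGroup_iff).1 hH.eigenvectorUnitary.2
    rwa [Matrix.star_eq_conjTranspose, Matrix.conjTranspose_eq_transpose_of_trivial] at this
  · have := (Matrix.mem_unitaryGroup_iff').1 hH.eigenvectorUnitary.2
    rwa [Matrix.star_eq_conjTranspose, Matrix.conjTranspose_eq_transpose_of_trivial] at this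
  · have := hH.spectral_theorem
    rw [Unitary.conjStarAlgAut_apply] at this
    rw [Matrix.star_eq_conjTranspose, Matrix.conjTranspose_eq_transpose_of_trivial] at this
    exact this

lemma diag_pow {N : ℕ} (V : Matrix (Fin N) (Fin N) ℝ) (d : Fin N → ℝ) (h1 : V * Vᵀ = 1)
    (h2 : Vᵀ * V = 1) (q : ℕ) :
    (V * diagonal d * Vᵀ) ^ q = V * diagonal (fun i => d i ^ q) * Vᵀ := by
  induction q with
  | zero => simp [h1]
  | succ q ih =>
    rw [pow_succ, ih]
    calc V * diagonal (fun i => d i ^ q) * Vᵀ * (V * diagonal d * Vᵀ)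
        = V * diagonal (fun i => d i ^ q) * (Vᵀ * V) * diagonal d * Vᵀ := by
          simp only [Matrix.mul_assoc]
      _ = _ := by
        rw [h2, Matrix.mul_one, Matrix.mul_assoc V, Matrix.diagonal_mul_diagonal]
        simp only [pow_succ]

lemma real_ineq (a b : ℝ) (q r : ℕ) (h : Even (q + r)) :
    a ^ q * b ^ r + a ^ r * b ^ q ≤ a ^ (q + r) + b ^ (q + r) := by
  have h1 : a ^ (q + r) = |a| ^ (q + r) := (Even.pow_abs h a).symm
  have h2 : b ^ (q + r) = |b| ^ (q + r) := (Even.pow_abs h b).symm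
  have h3 : a ^ q * b ^ r ≤ |a| ^ q * |b| ^ r := by
    rw [← abs_pow, ← abs_pow, ← abs_mul]; exact le_abs_self _
  have h4 : a ^ r * b ^ q ≤ |a| ^ r * |b| ^ q := by
    rw [← abs_pow, ← abs_pow, ← abs_mul]; exact le_abs_self _
  have h5 : 0 ≤ (|a| ^ q - |b| ^ q) * (|a| ^ r - |b| ^ r) := by
    rcases le_total (|a|) (|b|) with hab | hab
    · exact mul_nonneg_of_nonpos_of_nonpos
        (sub_nonpos.2 (pow_le_pow_left₀ (abs_nonneg _) hab _))
        (sub_nonpos.2 (pow_le_pow_left₀ (abs_nonneg _) hab _))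
    · exact mul_nonneg (sub_nonneg.2 (pow_le_pow_left₀ (abs_nonneg _) hab _))
        (sub_nonneg.2 (pow_le_pow_left₀ (abs_nonneg _) hab _))
  rw [h1, h2, pow_add, pow_add]
  nlinarith

lemma tr_diag {N : ℕ} (B : Matrix (Fin N) (Fin N) ℝ) (hB : B.IsSymm) (e f : Fin N → ℝ) :
    (B * diagonal e * B * diagonal f).trace = ∑ i, ∑ j, B i j ^ 2 * (e j * f i) := by
  rw [Matrix.trace]
  refine Finset.sum_congr rfl fun i _ => ?_
  rw [Matrix.diag_apply, Matrix.mul_diagonal, Matrix.mul_apply, Finset.sum_mul]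
  refine Finset.sum_congr rfl fun j _ => ?_
  have : B j i = B i j := hB.apply i j
  rw [Matrix.mul_diagonal, this]; ring

lemma tr_young {N : ℕ} (B X : Matrix (Fin N) (Fin N) ℝ) (hB : B.IsSymm) (hX : X.IsSymm)
    (q r : ℕ) (h : Even (q + r)) :
    (B * X ^ q * B * X ^ r).trace ≤ (B * B * X ^ (q + r)).trace := by
  obtain ⟨V, d, h1, h2, rfl⟩ := exists_diag X hX
  set B' := Vᵀ * B * V with hB'
  have hB's : B'.IsSymm := by
    rw [Matrix.IsSymm, hB', Matrix.transpose_mul, Matrix.transpose_mul, Matrix.transpose_transpose,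
      hB.eq, Matrix.mul_assoc]
  have key : ∀ q r : ℕ, (B * (V * diagonal d * Vᵀ) ^ q * B * (V * diagonal d * Vᵀ) ^ r).trace =
      (B' * diagonal (fun i => d i ^ q) * B' * diagonal (fun i => d i ^ r)).trace := by
    intro q r
    rw [diag_pow V d h1 h2, diag_pow V d h1 h2]
    calc (B * (V * diagonal (fun i => d i ^ q) * Vᵀ) * B *
          (V * diagonal (fun i => d i ^ r) * Vᵀ)).trace
        = ((B * V * diagonal (fun i => d i ^ q) * Vᵀ * B * V * diagonal (fun i => d i ^ r)) *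
            Vᵀ).trace := by simp only [Matrix.mul_assoc]
      _ = (Vᵀ * (B * V * diagonal (fun i => d i ^ q) * Vᵀ * B * V *
            diagonal (fun i => d i ^ r))).trace := Matrix.trace_mul_comm _ _
      _ = _ := by rw [hB']; simp only [Matrix.mul_assoc]
  have e2 : (B * B * (V * diagonal d * Vᵀ) ^ (q + r)).trace =
      (B' * diagonal (fun i => d i ^ 0) * B' * diagonal (fun i => d i ^ (q + r))).trace := by
    rw [← key 0 (q + r)]; simp
  rw [key, e2, tr_diag B' hB's, tr_diag B' hB's]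
  have s1 : ∑ i, ∑ j, B' i j ^ 2 * (d j ^ q * d i ^ r) =
      ∑ i, ∑ j, B' i j ^ 2 * (d i ^ q * d j ^ r) := by
    rw [Finset.sum_comm]
    refine Finset.sum_congr rfl fun i _ => Finset.sum_congr rfl fun j _ => ?_
    rw [show B' j i = B' i j from hB's.apply i j]
  have s2 : ∑ i, ∑ j, B' i j ^ 2 * (d j ^ 0 * d i ^ (q + r)) =
      ∑ i, ∑ j, B' i j ^ 2 * (d i ^ 0 * d j ^ (q + r)) := by
    rw [Finset.sum_comm]
    refine Finset.sum_congr rfl fun i _ => Finset.sum_congr rfl fun j _ => ?_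
    rw [show B' j i = B' i j from hB's.apply i j]
  have s3 : (∑ i, ∑ j, B' i j ^ 2 * (d j ^ q * d i ^ r)) +
      ∑ i, ∑ j, B' i j ^ 2 * (d i ^ q * d j ^ r) ≤
      (∑ i, ∑ j, B' i j ^ 2 * (d j ^ 0 * d i ^ (q + r))) +
      ∑ i, ∑ j, B' i j ^ 2 * (d i ^ 0 * d j ^ (q + r)) := by
    simp only [← Finset.sum_add_distrib]
    refine Finset.sum_le_sum fun i _ => Finset.sum_le_sum fun j _ => ?_
    have := real_ineq (d j) (d i) q r h
    have h0 := sq_nonneg (B' i j)
    have : B' i j ^ 2 * (d j ^ q * d i ^ r + d j ^ r * d i ^ q) ≤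
      B' i j ^ 2 * (d j ^ (q + r) + d i ^ (q + r)) := mul_le_mul_of_nonneg_left this h0
    simp only [pow_zero, one_mul]
    linarith
  linarith

lemma qf_col {N : ℕ} (V Y : Matrix (Fin N) (Fin N) ℝ) (hY : Y.IsSymm) :
    (V * (Y * Y)).trace = ∑ i, qf V (fun j => Y j i) := by
  have : (V * (Y * Y)).trace = (Y * V * Y).trace := by
    rw [← Matrix.mul_assoc, Matrix.trace_mul_comm, ← Matrix.mul_assoc]
  rw [this, Matrix.mul_assoc]
  simp only [Matrix.trace, Matrix.diag_apply, Matrix.mul_apply, qf, dotProduct, Matrix.mulVec]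
  refine Finset.sum_congr rfl fun i _ => Finset.sum_congr rfl fun j _ => ?_
  rw [show Y i j = Y j i from hY.apply j i]

lemma tr_mono {N : ℕ} (V Q X : Matrix (Fin N) (Fin N) ℝ) (v : ℝ)
    (hX : X.IsSymm) (h : ∀ u : Fin N → ℝ, qf V u ≤ v * qf Q u) (s : ℕ) :
    (V * X ^ (2 * s)).trace ≤ v * (Q * X ^ (2 * s)).trace := by
  have hY : (X ^ s).IsSymm := by
    rw [Matrix.IsSymm, Matrix.transpose_pow, hX.eq]
  rw [two_mul, pow_add, qf_col V _ hY, qf_col Q _ hY, Finset.mul_sum]
  refine Finset.sum_le_sum fun i _ => ?_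
  exact h _

/-! ### Gaussian integration by parts for matrix polynomials -/

section Poly

variable {m N : ℕ}

/-- apply a map entrywise -/
lemma map_pderiv_mul (k : Fin m) (A B : Matrix (Fin N) (Fin N) (MvPolynomial (Fin m) ℝ)) :
    (A * B).map (MvPolynomial.pderiv k) =
      A.map (MvPolynomial.pderiv k) * B + A * B.map (MvPolynomial.pderiv k) := by
  refine Matrix.ext fun i j => ?_
  simp only [Matrix.map_apply, Matrix.mul_apply, Matrix.add_apply, map_sum,
    Derivation.leibniz, smul_eq_mul]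
  rw [← Finset.sum_add_distrib]
  refine Finset.sum_congr rfl fun l _ => ?_
  ring

lemma map_pderiv_one (k : Fin m) :
    (1 : Matrix (Fin N) (Fin N) (MvPolynomial (Fin m) ℝ)).map (MvPolynomial.pderiv k) = 0 := by
  ext i j : 2
  simp only [Matrix.map_apply, Matrix.one_apply, Matrix.zero_apply]
  split_ifs <;> simp

lemma map_pderiv_pow (k : Fin m) (A : Matrix (Fin N) (Fin N) (MvPolynomial (Fin m) ℝ)) (r : ℕ) :
    (A ^ r).map (MvPolynomial.pderiv k) =
      ∑ q ∈ Finset.range r, A ^ q * A.map (MvPolynomial.pderiv k) * A ^ (r - 1 - q) := by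
  induction r with
  | zero => simp [map_pderiv_one]
  | succ r ih =>
    rw [pow_succ, map_pderiv_mul, ih, Finset.sum_range_succ, Finset.sum_mul]
    congr 1
    · refine Finset.sum_congr rfl fun q hq => ?_
      have hq' := Finset.mem_range.1 hq
      rw [Matrix.mul_assoc, ← pow_succ]
      congr 2
      omega
    · simp

/-- the matrix `∑ X_k B_k` over the polynomial ring -/
noncomputable def PM (B : Fin m → Matrix (Fin N) (Fin N) ℝ) :
    Matrix (Fin N) (Fin N) (MvPolynomial (Fin m) ℝ) :=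
  Matrix.of fun i j => ∑ k, MvPolynomial.X k * MvPolynomial.C (B k i j)

/-- constant matrices -/
noncomputable def CM (A : Matrix (Fin N) (Fin N) ℝ) :
    Matrix (Fin N) (Fin N) (MvPolynomial (Fin m) ℝ) := A.map MvPolynomial.C

lemma PM_pderiv (B : Fin m → Matrix (Fin N) (Fin N) ℝ) (k : Fin m) :
    (PM B).map (MvPolynomial.pderiv k) = CM (B k) := by
  ext i j : 2
  simp only [Matrix.map_apply, PM, CM, Matrix.of_apply, map_sum, Derivation.leibniz, smul_eq_mul,
    MvPolynomial.pderiv_C, mul_zero, zero_add]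
  rw [Finset.sum_eq_single k]
  · rw [MvPolynomial.pderiv_X_self, mul_one]
  · intro l _ hl
    rw [MvPolynomial.pderiv_X_of_ne hl, mul_zero]
  · intro h; exact absurd (Finset.mem_univ k) h

lemma CM_pderiv (A : Matrix (Fin N) (Fin N) ℝ) (k : Fin m) :
    (CM A : Matrix (Fin N) (Fin N) (MvPolynomial (Fin m) ℝ)).map (MvPolynomial.pderiv k) = 0 := by
  ext i j : 2
  simp [CM]

/-- evaluation ring homomorphism on matrices -/
noncomputable def EV (g : Fin m → ℝ) :
    Matrix (Fin N) (Fin N) (MvPolynomial (Fin m) ℝ) →+* Matrix (Fin N) (Fin N) ℝ :=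
  (MvPolynomial.eval g).mapMatrix

lemma EV_PM (B : Fin m → Matrix (Fin N) (Fin N) ℝ) (g : Fin m → ℝ) :
    EV g (PM B) = ∑ k, g k • B k := by
  ext i j : 2
  simp [EV, PM, Matrix.sum_apply]

lemma EV_CM (A : Matrix (Fin N) (Fin N) ℝ) (g : Fin m → ℝ) :
    EV g (CM A) = A := by
  ext i j : 2
  simp [EV, CM]

lemma eval_trace (A : Matrix (Fin N) (Fin N) (MvPolynomial (Fin m) ℝ)) (g : Fin m → ℝ) :
    MvPolynomial.eval g A.trace = (EV g A).trace := by
  simp [EV, Matrix.trace, map_sum]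

lemma pderiv_trace (A : Matrix (Fin N) (Fin N) (MvPolynomial (Fin m) ℝ)) (k : Fin m) :
    MvPolynomial.pderiv k A.trace = (A.map (MvPolynomial.pderiv k)).trace := by
  simp [Matrix.trace, map_sum]

lemma gm_eq : Pool.Agent.TH722.K6.gm (Fin m) = gN m := rfl

/-- traces of words are integrable -/
lemma int_trace (A : Matrix (Fin N) (Fin N) (MvPolynomial (Fin m) ℝ)) :
    Integrable (fun g => (EV g A).trace) (gN m) := by
  have := Pool.Agent.TH722.K6.int_poly A.trace
  rw [gm_eq] at this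
  refine this.congr (Filter.Eventually.of_forall fun g => ?_)
  exact eval_trace A g

open Pool.Agent.TH722.K6 in
/-- the recursion -/
lemma recursion (B : Fin m → Matrix (Fin N) (Fin N) ℝ) (r : ℕ) :
    Ex ((PM B) ^ (r + 1)).trace =
      ∑ k, ∑ q ∈ Finset.range r, Ex (CM (B k) * (PM B) ^ q * CM (B k) * (PM B) ^ (r - 1 - q)).trace := by
  have e1 : ((PM B) ^ (r + 1)).trace =
      ∑ k, MvPolynomial.X k * (CM (B k) * (PM B) ^ r).trace := by
    have h0 : PM B = ∑ k, (MvPolynomial.X k : MvPolynomial (Fin m) ℝ) • CM (B k) := by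
      ext i j : 2
      simp [PM, CM, Matrix.sum_apply]
    rw [pow_succ']
    nth_rewrite 1 [h0]
    rw [Finset.sum_mul, Matrix.trace_sum]
    refine Finset.sum_congr rfl fun k _ => ?_
    rw [Matrix.smul_mul, Matrix.trace_smul, smul_eq_mul]
  rw [e1, map_sum]
  refine Finset.sum_congr rfl fun k _ => ?_
  rw [stein, pderiv_trace, map_pderiv_mul, CM_pderiv, Matrix.zero_mul, zero_add, map_pderiv_pow,
    PM_pderiv, Finset.mul_sum, Matrix.trace_sum, map_sum]
  refine Finset.sum_congr rfl fun q _ => ?_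
  simp only [Matrix.mul_assoc]

lemma isSymm_sum (B : Fin m → Matrix (Fin N) (Fin N) ℝ) (hB : ∀ k, (B k).IsSymm)
    (g : Fin m → ℝ) : (∑ k, g k • B k).IsSymm := by
  rw [Matrix.IsSymm, Matrix.transpose_sum]
  refine Finset.sum_congr rfl fun k _ => ?_
  rw [Matrix.transpose_smul, (hB k).eq]

lemma ptwise (B : Fin m → Matrix (Fin N) (Fin N) ℝ) (Q : Matrix (Fin N) (Fin N) ℝ) (v : ℝ)
    (hB : ∀ k, (B k).IsSymm) (h : ∀ u : Fin N → ℝ, qf (∑ k, B k * B k) u ≤ v * qf Q u) (s n : ℕ)
    (hn : n = 2 * s) (X : Matrix (Fin N) (Fin N) ℝ) (hXs : X.IsSymm) :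
    ∑ k, ∑ q ∈ Finset.range (n + 1), (B k * X ^ q * B k * X ^ (n - q)).trace ≤
      ((n : ℝ) + 1) * (v * (Q * X ^ n).trace) := by
  have e1 : ∀ k, ∀ q ∈ Finset.range (n + 1),
      (B k * X ^ q * B k * X ^ (n - q)).trace ≤ (B k * B k * X ^ n).trace := by
    intro k q hq
    have hq' := Finset.mem_range.1 hq
    have e2 : q + (n - q) = n := by omega
    have := tr_young (B k) X (hB k) hXs q (n - q) (by rw [e2, hn]; exact even_two_mul s)
    rwa [e2] at this
  calc _ ≤ ∑ k : Fin m, ∑ q ∈ Finset.range (n + 1), (B k * B k * X ^ n).trace :=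
        Finset.sum_le_sum fun k _ => Finset.sum_le_sum fun q hq => e1 k q hq
    _ = ((n : ℝ) + 1) * ((∑ k, B k * B k) * X ^ n).trace := by
        simp only [Finset.sum_const, Finset.card_range, nsmul_eq_mul]
        rw [← Finset.mul_sum, Finset.sum_mul, Matrix.trace_sum]
        push_cast
        rfl
    _ ≤ _ := by
        refine mul_le_mul_of_nonneg_left ?_ (by positivity)
        rw [hn]
        exact tr_mono _ Q X v hXs h s

open Pool.Agent.TH722.K6 in
lemma Ex_mono {P R : MvPolynomial (Fin m) ℝ} (h : ∀ g, MvPolynomial.eval g P ≤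
    MvPolynomial.eval g R) : Ex P ≤ Ex R := by
  rw [Ex_apply, Ex_apply]
  exact integral_mono (int_poly P) (int_poly R) h

open Pool.Agent.TH722.K6 in
/-- one step of the recursion -/
lemma step (B : Fin m → Matrix (Fin N) (Fin N) ℝ) (Q : Matrix (Fin N) (Fin N) ℝ) (v : ℝ)
    (hB : ∀ k, (B k).IsSymm) (h : ∀ u : Fin N → ℝ, qf (∑ k, B k * B k) u ≤ v * qf Q u) (s n : ℕ)
    (hn : n = 2 * s) :
    Ex ((PM B) ^ (n + 2)).trace ≤ ((n : ℝ) + 1) * (v * Ex (CM Q * (PM B) ^ n).trace) := by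
  rw [recursion B (n + 1)]
  have e1 : ∑ k, ∑ q ∈ Finset.range (n + 1),
      Ex (CM (B k) * (PM B) ^ q * CM (B k) * (PM B) ^ (n + 1 - 1 - q)).trace =
      Ex (∑ k, ∑ q ∈ Finset.range (n + 1),
        (CM (B k) * (PM B) ^ q * CM (B k) * (PM B) ^ (n - q)).trace) := by
    rw [map_sum]
    refine Finset.sum_congr rfl fun k _ => ?_
    rw [map_sum]
    rfl
  have e2 : ((n : ℝ) + 1) * (v * Ex (CM Q * (PM B) ^ n).trace) =
      Ex (MvPolynomial.C ((n : ℝ) + 1) * (MvPolynomial.C v * (CM Q * (PM B) ^ n).trace)) := by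
    rw [Ex_C_mul, Ex_C_mul]
  rw [e1, e2]
  refine Ex_mono fun g => ?_
  have h3 := ptwise B Q v hB h s n hn _ (isSymm_sum B hB g)
  rw [map_mul, map_mul, MvPolynomial.eval_C, MvPolynomial.eval_C, map_sum, eval_trace, map_mul,
    map_pow, EV_PM, EV_CM]
  refine le_trans (le_of_eq ?_) h3
  refine Finset.sum_congr rfl fun k _ => ?_
  rw [map_sum]
  refine Finset.sum_congr rfl fun q _ => ?_
  rw [eval_trace, map_mul, map_mul, map_mul, map_pow, map_pow, EV_PM, EV_CM]

end Poly

open Pool.Agent.TH722.K6 in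
theorem s_MOM : S_MOM := by
  intro m N B Q v hv hB hQ hQQ hQB h p hp
  have e0 : ∀ r : ℕ, Ex ((PM B) ^ r).trace = ∫ g : Fin m → ℝ, ((∑ k, g k • B k) ^ r).trace ∂gN m := by
    intro r
    rw [Ex_apply, gm_eq]
    refine integral_congr_ae (Filter.Eventually.of_forall fun g => ?_)
    simp only [eval_trace, map_pow, EV_PM]
  refine ⟨?_, ?_⟩
  · refine (int_trace ((PM B) ^ (2 * p))).congr (Filter.Eventually.of_forall fun g => ?_)
    simp only [map_pow, EV_PM]
  · rw [← e0]
    have hQP : ∀ s : ℕ, 0 < s → CM Q * (PM B) ^ s = (PM B) ^ s := by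
      intro s hs
      obtain ⟨s, rfl⟩ : ∃ r, s = r + 1 := ⟨s - 1, by omega⟩
      rw [pow_succ', ← Matrix.mul_assoc]
      congr 1
      have h0 : PM B = ∑ k, (MvPolynomial.X k : MvPolynomial (Fin m) ℝ) • CM (B k) := by
        ext i j : 2
        simp [PM, CM, Matrix.sum_apply]
      have h1 : ∀ k, (CM Q : Matrix (Fin N) (Fin N) (MvPolynomial (Fin m) ℝ)) * CM (B k) =
          CM (B k) := by
        intro k
        rw [CM, CM, ← Matrix.map_mul, hQB k]
      rw [h0, Finset.mul_sum]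
      refine Finset.sum_congr rfl fun k _ => ?_
      rw [Matrix.mul_smul, h1]
    have main : ∀ s : ℕ, Ex ((PM B) ^ (2 * (s + 1))).trace ≤
        ((2 * (s + 1) - 1).doubleFactorial : ℝ) * v ^ (s + 1) * Q.trace := by
      intro s
      induction s with
      | zero =>
        have h1 := step B Q v hB h 0 0 rfl
        have h2 : Ex (CM Q * (PM B) ^ 0 : Matrix (Fin N) (Fin N)
            (MvPolynomial (Fin m) ℝ)).trace = Q.trace := by
          rw [pow_zero, Matrix.mul_one]
          have : (CM Q : Matrix (Fin N) (Fin N) (MvPolynomial (Fin m) ℝ)).trace =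
              MvPolynomial.C Q.trace := by
            simp [CM, Matrix.trace, map_sum]
          rw [this, Ex_C]
        rw [h2] at h1
        simpa using h1
      | succ s ih =>
        have h1 := step B Q v hB h (s + 1) (2 * (s + 1)) rfl
        rw [hQP (2 * (s + 1)) (by omega)] at h1
        have e1 : 2 * (s + 1 + 1) = 2 * (s + 1) + 2 := by ring
        have e2 : (2 * (s + 1 + 1) - 1).doubleFactorial =
            (2 * (s + 1) + 1) * (2 * (s + 1) - 1).doubleFactorial := by
          have : 2 * (s + 1 + 1) - 1 = (2 * (s + 1) - 1) + 2 := by omega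
          rw [this, Nat.doubleFactorial_add_two]
          rw [show 2 * (s + 1) - 1 + 2 = 2 * (s + 1) + 1 by omega]
        rw [e1]
        refine h1.trans ?_
        rw [show 2 * (s + 1) + 2 - 1 = 2 * (s + 1 + 1) - 1 by omega, e2]
        push_cast
        have h3 : (0 : ℝ) ≤ 2 * (s + 1) + 1 := by positivity
        have h4 := mul_le_mul_of_nonneg_left (mul_le_mul_of_nonneg_left ih hv) h3
        refine h4.trans (le_of_eq ?_)
        rw [pow_succ v (s + 1)]
        ring
    have := main (p - 1)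
    rwa [Nat.sub_add_cancel hp] at this

end Pool.Agent.K7.H98.TP
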