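import Pool.Agent.K7.H98.TP.Toe

/-!
MP_0d5435_pr, pieces NORM and ONE.
-/

set_option autoImplicit false

open MeasureTheory ProbabilityTheory Filter Topology Matrix
open Pool.Agent.K7.H95.TP

namespace Pool.Agent.K7.H98.TP

/-! ### ONE -/

lemma sq_moment (N : ℕ) (c : Fin N → ℝ) : Integrable (fun g : Fin N → ℝ => (∑ k, g k * c k) ^ 2)
    (gN N) ∧ ∫ g : Fin N → ℝ, (∑ k, g k * c k) ^ 2 ∂gN N ≤ ∑ k, c k ^ 2 := by
  have h := s_MOM N 1 (fun k => Matrix.of fun _ _ => c k) 1 (∑ k, c k ^ 2)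
    (Finset.sum_nonneg fun k _ => sq_nonneg _) (fun k => Matrix.IsSymm.ext fun i j => rfl)
    Matrix.isSymm_one (by rw [Matrix.mul_one]) (fun k => by rw [Matrix.one_mul]) (fun u => by
      simp only [qf, dotProduct, Matrix.mulVec, Fin.sum_univ_one, Matrix.sum_apply,
        Matrix.mul_apply, Matrix.of_apply, Matrix.one_apply]
      refine le_of_eq ?_
      simp only [if_true]
      rw [Finset.sum_congr rfl fun k _ => (sq (c k)).symm]
      ring) 1 one_pos
  have e : ∀ g : Fin N → ℝ, ((∑ k, g k • (Matrix.of fun _ _ => c k : Matrix (Fin 1) (Fin 1) ℝ)) ^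
      (2 * 1)).trace = (∑ k, g k * c k) ^ 2 := by
    intro g
    rw [mul_one, sq]
    simp [Matrix.trace, Matrix.mul_apply, Matrix.sum_apply, sq]
  simp only [e] at h
  refine ⟨h.1, h.2.trans (le_of_eq ?_)⟩
  simp

theorem s_ONE : S_ONE := by
  intro N
  have e : ∀ g : Fin N → ℝ, ∀ i, ∑ j, TG N g i j = ∑ k, g k * ∑ j, TA N k i j := by
    intro g i
    rw [TG_eq]
    simp only [Matrix.sum_apply, Matrix.smul_apply, smul_eq_mul]
    rw [Finset.sum_comm]
    exact Finset.sum_congr rfl fun k _ => (Finset.mul_sum _ _ _).symm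
  simp only [e]
  refine ⟨integrable_finsetSum _ fun i _ => (sq_moment N _).1, ?_⟩
  rw [integral_finsetSum _ fun i _ => (sq_moment N _).1]
  refine (Finset.sum_le_sum fun i _ => (sq_moment N _).2).trans ?_
  rw [Finset.sum_comm]
  have h1 : ∑ k, ∑ i, (∑ j, TA N k i j) ^ 2 = qf (∑ k, TA N k * TA N k) fun _ => 1 := by
    rw [qf_sum]
    refine Finset.sum_congr rfl fun k _ => ?_
    rw [qf_sq _ (TA_symm N k)]
    simp only [dotProduct, Matrix.mulVec, mul_one]
    exact Finset.sum_congr rfl fun i _ => sq _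
  rw [h1, qf_TA]
  have h2 : |∑ i : Fin N, (-1 : ℝ) ^ (i : ℕ) * 1| ≤ N := by
    refine (Finset.abs_sum_le_sum_abs _ _).trans ?_
    have : ∀ i : Fin N, |(-1 : ℝ) ^ (i : ℕ) * 1| = 1 := by
      intro i; rw [mul_one, abs_pow, abs_neg, abs_one, one_pow]
    simp [this]
  have h3 : (∑ i : Fin N, (-1 : ℝ) ^ (i : ℕ) * 1) ^ 2 ≤ (N : ℝ) ^ 2 := by
    rw [← sq_abs]
    exact pow_le_pow_left₀ (abs_nonneg _) h2 2
  have h4 : ((fun _ => 1 : Fin N → ℝ) ⬝ᵥ fun _ => 1) = N := by simp [dotProduct]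
  have h5 : ∑ _i : Fin N, (1 : ℝ) = N := by simp
  rw [h4, h5]
  have hN : (0 : ℝ) ≤ N := Nat.cast_nonneg N
  nlinarith

/-! ### NORM -/

lemma qf_sub_le {n : ℕ} (T T' : Matrix (Fin n) (Fin n) ℝ) (u : Fin n → ℝ) (hu : u ⬝ᵥ u = 1) :
    qf T u - qf T' u ≤ ∑ i, ∑ j, |T i j - T' i j| := by
  have h1 : ∀ i, |u i| ≤ 1 := by
    intro i
    have h2 : u i ^ 2 ≤ 1 := by
      rw [← hu]
      simp only [dotProduct]
      rw [sq]
      exact Finset.single_le_sum (f := fun i => u i * u i) (fun j _ => mul_self_nonneg _)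
        (Finset.mem_univ i)
    exact abs_le_one_iff_mul_self_le_one.2 (by rw [← sq]; exact h2)
  have e : qf T u - qf T' u = ∑ i, ∑ j, (T i j - T' i j) * (u i * u j) := by
    simp only [qf, dotProduct, Matrix.mulVec, Finset.mul_sum]
    rw [← Finset.sum_sub_distrib]
    refine Finset.sum_congr rfl fun i _ => ?_
    rw [← Finset.sum_sub_distrib]
    exact Finset.sum_congr rfl fun j _ => by ring
  rw [e]
  refine Finset.sum_le_sum fun i _ => Finset.sum_le_sum fun j _ => ?_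
  refine (le_abs_self _).trans ?_
  rw [abs_mul, abs_mul]
  have h3 : |u i| * |u j| ≤ 1 := by
    have := mul_le_mul (h1 i) (h1 j) (abs_nonneg _) zero_le_one
    simpa using this
  calc |T i j - T' i j| * (|u i| * |u j|) ≤ |T i j - T' i j| * 1 :=
        mul_le_mul_of_nonneg_left h3 (abs_nonneg _)
    _ = _ := mul_one _

lemma exists_unit {n : ℕ} (hn : 0 < n) : ∃ u : Fin n → ℝ, u ⬝ᵥ u = 1 :=
  ⟨Pi.single ⟨0, hn⟩ 1, by simp⟩

lemma mx_bdd {n : ℕ} (T : Matrix (Fin n) (Fin n) ℝ) : BddAbove (qf T '' {u | u ⬝ᵥ u = 1}) := by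
  refine ⟨∑ i, ∑ j, |T i j|, ?_⟩
  rintro _ ⟨u, hu, rfl⟩
  have := qf_sub_le T 0 u hu
  simp only [Matrix.zero_apply, sub_zero] at this
  have h0 : qf (0 : Matrix (Fin n) (Fin n) ℝ) u = 0 := by simp [qf]
  rw [h0, sub_zero] at this
  exact this

lemma le_mx {n : ℕ} (T : Matrix (Fin n) (Fin n) ℝ) (u : Fin n → ℝ) (hu : u ⬝ᵥ u = 1) :
    qf T u ≤ mx T := le_csSup (mx_bdd T) ⟨u, hu, rfl⟩

lemma mx_le {n : ℕ} (hn : 0 < n) (T : Matrix (Fin n) (Fin n) ℝ) (c : ℝ)
    (h : ∀ u : Fin n → ℝ, u ⬝ᵥ u = 1 → qf T u ≤ c) : mx T ≤ c := by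
  obtain ⟨u, hu⟩ := exists_unit hn
  refine csSup_le ⟨_, u, hu, rfl⟩ ?_
  rintro _ ⟨w, hw, rfl⟩
  exact h w hw

lemma mx_lip {n : ℕ} (hn : 0 < n) (T T' : Matrix (Fin n) (Fin n) ℝ) :
    mx T ≤ mx T' + ∑ i, ∑ j, |T i j - T' i j| := by
  refine mx_le hn T _ fun u hu => ?_
  have := qf_sub_le T T' u hu
  have := le_mx T' u hu
  linarith

lemma mx_cont {n : ℕ} (hn : 0 < n) : Continuous fun T : Matrix (Fin n) (Fin n) ℝ => mx T := by
  rw [continuous_iff_continuousAt]
  intro T₀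
  have h0 : Continuous fun T : Matrix (Fin n) (Fin n) ℝ => ∑ i, ∑ j, |T i j - T₀ i j| := by
    refine continuous_finset_sum _ fun i _ => continuous_finset_sum _ fun j _ => ?_
    exact ((continuous_apply_apply i j).sub continuous_const).abs
  have h1 : Tendsto (fun T : Matrix (Fin n) (Fin n) ℝ => ∑ i, ∑ j, |T i j - T₀ i j|) (𝓝 T₀)
      (𝓝 0) := by
    have := h0.tendsto T₀
    simpa using this
  rw [ContinuousAt, tendsto_iff_dist_tendsto_zero]
  refine squeeze_zero (fun _ => dist_nonneg) (fun T => ?_) h1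
  rw [Real.dist_eq, abs_le]
  have h2 := mx_lip hn T T₀
  have h3 := mx_lip hn T₀ T
  have h4 : ∑ i, ∑ j, |T₀ i j - T i j| = ∑ i, ∑ j, |T i j - T₀ i j| :=
    Finset.sum_congr rfl fun i _ => Finset.sum_congr rfl fun j _ => abs_sub_comm _ _
  constructor <;> linarith

lemma TG_cont (N : ℕ) : Continuous fun g : Fin N → ℝ => TG N g := by
  have : (fun g : Fin N → ℝ => TG N g) = fun g => ∑ k, g k • TA N k := funext fun g => TG_eq N g
  rw [this]
  fun_prop

lemma TG_symm (N : ℕ) (g : Fin N → ℝ) : (TG N g).IsSymm := by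
  rw [TG_eq]; exact isSymm_sum _ (TA_symm N) g

lemma norm_pow_le {N : ℕ} (hN : 0 < N) (T : Matrix (Fin N) (Fin N) ℝ) (hT : T.IsSymm) (p : ℕ)
    (hp : 0 < p) : 0 ≤ mx T ⊔ mx (-T) ∧ (mx T ⊔ mx (-T)) ^ (2 * p) ≤ (T ^ (2 * p)).trace := by
  have hneg : ∀ u, qf (-T) u = - qf T u := by
    intro u; simp [qf, Matrix.neg_mulVec]
  have h0 : 0 ≤ mx T ⊔ mx (-T) := by
    obtain ⟨u, hu⟩ := exists_unit hN
    have h1 := le_mx T u hu
    have h2 := le_mx (-T) u hu
    rw [hneg] at h2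
    have h3 := le_max_left (mx T) (mx (-T))
    have h4 := le_max_right (mx T) (mx (-T))
    linarith
  refine ⟨h0, ?_⟩
  -- if `c = (Tr T^(2p))^(1/(2p))`
  have htr : 0 ≤ (T ^ (2 * p)).trace := by
    obtain ⟨u, hu⟩ := exists_unit hN
    refine le_trans ?_ (qf_pow_le T hT u hu p)
    rw [pow_mul]; positivity
  set c := ((T ^ (2 * p)).trace) ^ ((1 : ℝ) / (2 * p : ℕ)) with hc
  have hc0 : 0 ≤ c := Real.rpow_nonneg htr _
  have h2p : (2 * p : ℕ) ≠ 0 := by omega
  have hcp : c ^ (2 * p) = (T ^ (2 * p)).trace := by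
    rw [hc, ← Real.rpow_natCast, ← Real.rpow_mul htr, one_div_mul_cancel (by exact_mod_cast h2p),
      Real.rpow_one]
  have hq : ∀ u : Fin N → ℝ, u ⬝ᵥ u = 1 → |qf T u| ≤ c := by
    intro u hu
    have h1 := qf_pow_le T hT u hu p
    rw [← hcp] at h1
    have h2 : |qf T u| ^ (2 * p) ≤ c ^ (2 * p) := by
      rw [Even.pow_abs (even_two_mul p)]; exact h1
    exact le_of_pow_le_pow_left₀ h2p hc0 h2
  have h5 : mx T ⊔ mx (-T) ≤ c := by
    refine max_le (mx_le hN _ _ fun u hu => ?_) (mx_le hN _ _ fun u hu => ?_)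
    · exact (le_abs_self _).trans (hq u hu)
    · rw [hneg]; exact (neg_le_abs _).trans (hq u hu)
  rw [← hcp]
  exact pow_le_pow_left₀ h0 h5 _

lemma dfact_crude (p : ℕ) : ((2 * (p + 1) - 1).doubleFactorial : ℝ) ≤
    (2 * ((p : ℝ) + 1)) ^ (p + 1) := by
  induction p with
  | zero => norm_num
  | succ p ih =>
    have e2 : (2 * (p + 1 + 1) - 1).doubleFactorial =
        (2 * (p + 1) + 1) * (2 * (p + 1) - 1).doubleFactorial := by
      have : 2 * (p + 1 + 1) - 1 = (2 * (p + 1) - 1) + 2 := by omega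
      rw [this, Nat.doubleFactorial_add_two]
      rw [show 2 * (p + 1) - 1 + 2 = 2 * (p + 1) + 1 by omega]
    rw [e2]
    push_cast
    have h0 : (0 : ℝ) ≤ p := Nat.cast_nonneg p
    calc (2 * ((p : ℝ) + 1) + 1) * ((2 * (p + 1) - 1).doubleFactorial : ℝ)
        ≤ (2 * ((p : ℝ) + 1 + 1)) * (2 * ((p : ℝ) + 1)) ^ (p + 1) :=
          mul_le_mul (by linarith) ih (Nat.cast_nonneg _) (by positivity)
      _ ≤ (2 * ((p : ℝ) + 1 + 1)) * (2 * ((p : ℝ) + 1 + 1)) ^ (p + 1) := by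
          refine mul_le_mul_of_nonneg_left ?_ (by positivity)
          exact pow_le_pow_left₀ (by positivity) (by linarith) _
      _ = _ := by rw [← pow_succ']

theorem s_NORM : S_NORM := by
  refine ⟨12, by norm_num, fun N hN => ?_⟩
  have hN0 : 0 < N := by omega
  have hNr : (0 : ℝ) < N := by exact_mod_cast hN0
  have hN2 : (2 : ℝ) ≤ N := by exact_mod_cast hN
  have hlog : Real.log 2 ≤ Real.log N := Real.log_le_log (by norm_num) hN2
  have hl2 := Real.log_two_gt_d9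
  have hΛ : 0 < Real.log N := by linarith
  set p := ⌈Real.log N⌉₊ with hp
  have hp0 : 0 < p := Nat.ceil_pos.2 hΛ
  have hp1 : Real.log N ≤ p := Nat.le_ceil _
  have hp2 : (p : ℝ) < Real.log N + 1 := Nat.ceil_lt_add_one hΛ.le
  have hpr : (0 : ℝ) < p := by exact_mod_cast hp0
  have hmom := s_MOM N N (TA N) 1 (2 * N) (by positivity) (TA_symm N) Matrix.isSymm_one
    (by rw [Matrix.mul_one]) (fun k => by rw [Matrix.one_mul]) (fun u => by
      rw [qf_TA]
      have h1 : qf (1 : Matrix (Fin N) (Fin N) ℝ) u = u ⬝ᵥ u := by simp [qf]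
      have hcs : ∀ c : Fin N → ℝ, (∀ i, c i ^ 2 = 1) → (∑ i, c i * u i) ^ 2 ≤ N * (u ⬝ᵥ u) := by
        intro c hc
        refine (Finset.sum_mul_sq_le_sq_mul_sq _ _ _).trans (le_of_eq ?_)
        simp only [hc, dotProduct]
        simp [sq]
      have h2 := hcs (fun _ => 1) (fun _ => by norm_num)
      have h3 := hcs (fun i => (-1) ^ (i : ℕ)) (fun i => by rw [← pow_mul, mul_comm, pow_mul]; simp)
      simp only [one_mul] at h2
      have h4 : 0 ≤ u ⬝ᵥ u := by
        simp only [dotProduct]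
        exact Finset.sum_nonneg fun i _ => mul_self_nonneg _
      rw [h1]
      nlinarith) p hp0
  rw [Matrix.trace_one, Fintype.card_fin] at hmom
  have eT : ∀ g : Fin N → ℝ, ∑ k, g k • TA N k = TG N g := fun g => (TG_eq N g).symm
  simp only [eT] at hmom
  obtain ⟨hi, hle⟩ := hmom
  set f := fun g : Fin N → ℝ => mx (TG N g) ⊔ mx (-TG N g) with hf
  have hfc : Continuous f :=
    ((mx_cont hN0).comp (TG_cont N)).max ((mx_cont hN0).comp (TG_cont N).neg)
  set a := √(4 * p * N * Real.exp 1) with ha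
  have ha0 : 0 < a := Real.sqrt_pos.2 (by positivity)
  have ha2 : a ^ 2 = 4 * p * N * Real.exp 1 := Real.sq_sqrt (by positivity)
  have hpt : ∀ g, f g ≤ a + (TG N g ^ (2 * p)).trace / a ^ (2 * p - 1) := by
    intro g
    obtain ⟨h0, h1⟩ := norm_pow_le hN0 (TG N g) (TG_symm N g) p hp0
    have h2 : 0 ≤ (TG N g ^ (2 * p)).trace := le_trans (by rw [pow_mul]; positivity) h1
    rcases le_total (f g) a with h | h
    · have : 0 ≤ (TG N g ^ (2 * p)).trace / a ^ (2 * p - 1) := by positivity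
      linarith
    · have h3 : f g ≤ (TG N g ^ (2 * p)).trace / a ^ (2 * p - 1) := by
        rw [le_div_iff₀ (by positivity)]
        refine le_trans ?_ h1
        have e : (mx (TG N g) ⊔ mx (-TG N g)) ^ (2 * p) = f g * f g ^ (2 * p - 1) := by
          rw [← pow_succ', Nat.sub_add_cancel (by omega)]
        rw [e]
        exact mul_le_mul_of_nonneg_left (pow_le_pow_left₀ ha0.le h _) h0
      linarith
  have hint : Integrable (fun g => a + (TG N g ^ (2 * p)).trace / a ^ (2 * p - 1)) (gN N) :=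
    (integrable_const a).add (hi.div_const _)
  have hfi : Integrable f (gN N) := by
    refine hint.mono' hfc.aestronglyMeasurable (Filter.Eventually.of_forall fun g => ?_)
    rw [Real.norm_of_nonneg (norm_pow_le hN0 (TG N g) (TG_symm N g) p hp0).1]
    exact hpt g
  refine ⟨hfi, ?_⟩
  have h1 : ∫ g, f g ∂gN N ≤ a + (∫ g, (TG N g ^ (2 * p)).trace ∂gN N) / a ^ (2 * p - 1) := by
    refine (integral_mono hfi hint hpt).trans (le_of_eq ?_)
    rw [integral_add (integrable_const a) (hi.div_const _), integral_const, integral_div]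
    simp
  have hdf : ((2 * p - 1).doubleFactorial : ℝ) ≤ (2 * (p : ℝ)) ^ p := by
    have := dfact_crude (p - 1)
    rw [Nat.sub_add_cancel hp0] at this
    have e : ((p - 1 : ℕ) : ℝ) + 1 = p := by
      rw [Nat.cast_sub hp0]; push_cast; ring
    rwa [e] at this
  have h2 : (∫ g, (TG N g ^ (2 * p)).trace ∂gN N) / a ^ (2 * p - 1) ≤ a := by
    rw [div_le_iff₀ (by positivity), ← pow_succ', Nat.sub_add_cancel (by omega)]
    refine hle.trans ?_
    rw [pow_mul a 2 p, ha2]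
    calc ((2 * p - 1).doubleFactorial : ℝ) * (2 * (N : ℝ)) ^ p * N
        ≤ (2 * (p : ℝ)) ^ p * (2 * (N : ℝ)) ^ p * Real.exp p := by
          refine mul_le_mul (mul_le_mul_of_nonneg_right hdf (by positivity)) ?_ hNr.le
            (by positivity)
          calc (N : ℝ) = Real.exp (Real.log N) := (Real.exp_log hNr).symm
            _ ≤ Real.exp p := Real.exp_le_exp.2 hp1
      _ = (4 * p * N * Real.exp 1) ^ p := by
          have : Real.exp (p : ℝ) = Real.exp 1 ^ p := by rw [← Real.exp_nat_mul, mul_one]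
          rw [this, ← mul_pow, ← mul_pow]
          congr 1
          ring
  have h3 : a ≤ 6 * √(N * Real.log N) := by
    rw [ha, show (6 : ℝ) = √36 by
      rw [show (36 : ℝ) = 6 ^ 2 by norm_num, Real.sqrt_sq (by norm_num)],
      ← Real.sqrt_mul (by norm_num)]
    apply Real.sqrt_le_sqrt
    have h4 : (p : ℝ) ≤ 3 * Real.log N := by linarith
    have h5 := Real.exp_one_lt_d9
    have h6 : (p : ℝ) * Real.exp 1 ≤ 9 * Real.log N := by
      calc (p : ℝ) * Real.exp 1 ≤ (3 * Real.log N) * 3 :=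
            mul_le_mul h4 (by linarith) (Real.exp_pos 1).le (by positivity)
        _ = _ := by ring
    calc 4 * (p : ℝ) * N * Real.exp 1 = 4 * N * (p * Real.exp 1) := by ring
      _ ≤ 4 * N * (9 * Real.log N) := mul_le_mul_of_nonneg_left h6 (by positivity)
      _ = _ := by ring
  linarith

end Pool.Agent.K7.H98.TP
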