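import Pool.Agent.K7.H98.TP.Toe

/-!
MP_0d5435_pr, piece WIN: the quadratic form on block constant vectors.
-/

set_option autoImplicit false

open MeasureTheory ProbabilityTheory Filter Topology Matrix
open Pool.Agent.K7.H95.TP

namespace Pool.Agent.K7.H98.TP

/-- the projection on the block constant vectors of mean zero -/
noncomputable def BQ (K M : ℕ) : Matrix (Fin (K * M)) (Fin (K * M)) ℝ :=
  Matrix.of fun i j => (if (i : ℕ) / K = (j : ℕ) / K then (K : ℝ)⁻¹ else 0) -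
    ((K * M : ℕ) : ℝ)⁻¹

lemma BQ_symm (K M : ℕ) : (BQ K M).IsSymm := by
  refine Matrix.IsSymm.ext fun i j => ?_
  simp only [BQ, Matrix.of_apply, eq_comm]

lemma card_block {K M : ℕ} (hK : 0 < K) (b : ℕ) (hb : b < M) :
    (Finset.univ.filter fun j : Fin (K * M) => b = (j : ℕ) / K).card = K := by
  have : (Finset.univ.filter fun j : Fin (K * M) => b = (j : ℕ) / K).card =
      (Finset.range K).card := by
    refine Finset.card_bij' (fun j _ => (j : ℕ) % K) (fun r hr => ⟨K * b + r, ?_⟩) ?_ ?_ ?_ ?_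
    · have h1 := Finset.mem_range.1 hr
      calc K * b + r < K * b + K := by omega
        _ = K * (b + 1) := by ring
        _ ≤ K * M := Nat.mul_le_mul_left _ hb
    · intro j _
      exact Finset.mem_range.2 (Nat.mod_lt _ hK)
    · intro r hr
      have h1 := Finset.mem_range.1 hr
      simp only [Finset.mem_filter, Finset.mem_univ, true_and]
      rw [Nat.mul_add_div hK, Nat.div_eq_of_lt h1, add_zero]
    · intro j hj
      have h1 := (Finset.mem_filter.1 hj).2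
      apply Fin.ext
      simp only [h1]
      exact Nat.div_add_mod _ _
    · intro r hr
      have h1 := Finset.mem_range.1 hr
      simp only [Nat.mul_add_mod, Nat.mod_eq_of_lt h1]
  rw [this, Finset.card_range]

lemma BQ_BC {K M : ℕ} (hK : 0 < K) (u : Fin (K * M) → ℝ) (hu : BC K M u) :
    (BQ K M).mulVec u = u := by
  funext i
  simp only [Matrix.mulVec, dotProduct, BQ, Matrix.of_apply, sub_mul]
  rw [Finset.sum_sub_distrib, ← Finset.mul_sum, hu.2, mul_zero, sub_zero]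
  have h1 : ∀ j : Fin (K * M), (if (i : ℕ) / K = (j : ℕ) / K then (K : ℝ)⁻¹ else 0) * u j =
      if (i : ℕ) / K = (j : ℕ) / K then (K : ℝ)⁻¹ * u i else 0 := by
    intro j
    split_ifs with h
    · rw [hu.1 i j h]
    · ring
  simp only [h1]
  rw [← Finset.sum_filter, Finset.sum_const, card_block hK _ (by
    rw [Nat.div_lt_iff_lt_mul hK]; exact lt_of_lt_of_eq i.2 (mul_comm K M)), nsmul_eq_mul, ← mul_assoc,
    mul_inv_cancel₀ (by positivity), one_mul]

lemma BC_BQ {K M : ℕ} (hK : 0 < K) (w : Fin (K * M) → ℝ) : BC K M ((BQ K M).mulVec w) := by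
  constructor
  · intro i j hij
    simp only [Matrix.mulVec, dotProduct, BQ, Matrix.of_apply, hij]
  · simp only [Matrix.mulVec, dotProduct]
    rw [Finset.sum_comm]
    refine Finset.sum_eq_zero fun j _ => ?_
    rw [← Finset.sum_mul]
    have : ∑ i, BQ K M i j = 0 := by
      simp only [BQ, Matrix.of_apply]
      have hc := card_block hK ((j : ℕ) / K) (M := M) (by
        rw [Nat.div_lt_iff_lt_mul hK]; exact lt_of_lt_of_eq j.2 (mul_comm K M))
      have h0 : (0 : ℝ) < (K * M : ℕ) := by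
        have : 0 < K * M := lt_of_le_of_lt (Nat.zero_le _) j.2
        exact_mod_cast this
      rw [Finset.sum_sub_distrib, ← Finset.sum_filter, Finset.sum_const, Finset.sum_const,
        Finset.card_univ, Fintype.card_fin]
      simp only [eq_comm (b := (j : ℕ) / K)]
      rw [hc, nsmul_eq_mul, nsmul_eq_mul, mul_inv_cancel₀ (by positivity),
        mul_inv_cancel₀ h0.ne', sub_self]
    rw [this, zero_mul]

lemma BQ_sq {K M : ℕ} (hK : 0 < K) : BQ K M * BQ K M = BQ K M := by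
  apply Matrix.toLin'.injective
  refine LinearMap.ext fun w => ?_
  rw [Matrix.toLin'_apply, Matrix.toLin'_apply, ← Matrix.mulVec_mulVec]
  exact BQ_BC hK _ (BC_BQ hK w)

lemma BQ_trace {K M : ℕ} (hK : 0 < K) : (BQ K M).trace ≤ M := by
  have : (BQ K M).trace = ∑ i : Fin (K * M), ((K : ℝ)⁻¹ - ((K * M : ℕ) : ℝ)⁻¹) := by
    simp [Matrix.trace, BQ]
  rw [this, Finset.sum_const, Finset.card_univ, Fintype.card_fin, nsmul_eq_mul, mul_sub]
  have h1 : ((K * M : ℕ) : ℝ) * (K : ℝ)⁻¹ = M := by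
    push_cast
    field_simp
  have h2 : 0 ≤ ((K * M : ℕ) : ℝ) * ((K * M : ℕ) : ℝ)⁻¹ := by positivity
  rw [h1]
  linarith

/-- alternating sum of block constant vectors -/
lemma BC_alt {K M : ℕ} (hKe : Even K) (u : Fin (K * M) → ℝ) (hu : BC K M u) :
    ∑ i : Fin (K * M), (-1) ^ (i : ℕ) * u i = 0 := by
  have hN : Even (K * M) := hKe.mul_right M
  obtain ⟨h, hh⟩ := hN
  let σ : Fin (K * M) → Fin (K * M) := fun i =>
    if hi : (i : ℕ) % 2 = 0 then ⟨(i : ℕ) + 1, by have := i.2; omega⟩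
      else ⟨(i : ℕ) - 1, by have := i.2; omega⟩
  have hσ : ∀ i : Fin (K * M), ((i : ℕ) % 2 = 0 ∧ (σ i : ℕ) = i + 1) ∨ ((i : ℕ) % 2 = 1 ∧ (σ i : ℕ) + 1 = i) := by
    intro i
    by_cases hi : (i : ℕ) % 2 = 0
    · left
      refine ⟨hi, ?_⟩
      simp only [σ, dif_pos hi]
    · right
      refine ⟨by omega, ?_⟩
      simp only [σ, dif_neg hi]
      omega
  have hdiv : ∀ a : ℕ, a % 2 = 0 → (a + 1) / K = a / K := by
    intro a ha
    rw [Nat.succ_div, if_neg, add_zero]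
    rintro ⟨c, hc⟩
    obtain ⟨k, hk⟩ := hKe
    rw [hk] at hc
    have : a + 1 = 2 * (k * c) := by rw [hc]; ring
    omega
  have hb : ∀ i, u (σ i) = u i := by
    intro i
    apply hu.1
    rcases hσ i with ⟨h1, h2⟩ | ⟨h1, h2⟩
    · rw [h2, hdiv _ h1]
    · rw [← h2, hdiv _ (by omega)]
  refine Finset.sum_involution (fun i _ => σ i) ?_ ?_ ?_ ?_
  · intro i _
    rw [hb]
    rcases hσ i with ⟨h1, h2⟩ | ⟨h1, h2⟩
    · rw [h2, pow_succ]; ring
    · rw [← h2, pow_succ]; ring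
  · intro i _ _ h
    have h3 : (σ i : ℕ) = i := by rw [h]
    rcases hσ i with ⟨h1, h2⟩ | ⟨h1, h2⟩ <;> omega
  · intro i _; exact Finset.mem_univ _
  · intro i _
    apply Fin.ext
    rcases hσ i with ⟨h1, h2⟩ | ⟨h1, h2⟩ <;> rcases hσ (σ i) with ⟨h3, h4⟩ | ⟨h3, h4⟩ <;> omega

/-- the trace moment bound for the window matrix -/
lemma win_moment {K M : ℕ} (hK : 0 < K) (hKe : Even K) (p : ℕ) (hp : 0 < p) :
    Integrable (fun g : Fin (K * M) → ℝ =>
      ((∑ k, g k • (BQ K M * TA (K * M) k * BQ K M)) ^ (2 * p)).trace) (gN (K * M)) ∧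
    ∫ g : Fin (K * M) → ℝ,
      ((∑ k, g k • (BQ K M * TA (K * M) k * BQ K M)) ^ (2 * p)).trace ∂gN (K * M) ≤
      ((2 * p - 1).doubleFactorial : ℝ) * ((K * M : ℕ) : ℝ) ^ p * M := by
  have h := s_MOM (K * M) (K * M) (fun k => BQ K M * TA (K * M) k * BQ K M) (BQ K M)
    ((K * M : ℕ) : ℝ) (Nat.cast_nonneg _) (fun k => by
      rw [Matrix.IsSymm, Matrix.transpose_mul, Matrix.transpose_mul, (BQ_symm K M).eq,
        (TA_symm _ k).eq, Matrix.mul_assoc]) (BQ_symm K M) (BQ_sq hK)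
    (fun k => by rw [← Matrix.mul_assoc, ← Matrix.mul_assoc, BQ_sq hK]) (fun u => by
      refine (qf_compress _ (TA_symm _) _ (BQ_symm K M) (BQ_sq hK) u).trans ?_
      rw [qf_TA, (BC_BQ hK u).2, BC_alt hKe _ (BC_BQ hK u)]
      have h1 : qf (BQ K M) u = (BQ K M).mulVec u ⬝ᵥ (BQ K M).mulVec u := by
        rw [← qf_sq _ (BQ_symm K M), BQ_sq hK]
      rw [h1]
      have h2 : 0 ≤ (BQ K M).mulVec u ⬝ᵥ (BQ K M).mulVec u := by
        simp only [dotProduct]
        exact Finset.sum_nonneg fun i _ => mul_self_nonneg _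
      nlinarith) p hp
  refine ⟨h.1, h.2.trans ?_⟩
  exact mul_le_mul_of_nonneg_left (BQ_trace hK) (by positivity)

/-- the probability bound -/
lemma win_prob {K M : ℕ} (hK : 0 < K) (hKe : Even K) (p : ℕ) (hp : 0 < p) (t : ℝ) (ht : 0 < t) :
    gN (K * M) {g | ∃ u, BC K M u ∧ u ⬝ᵥ u = 1 ∧ t < qf (TG (K * M) g) u} ≤
      ENNReal.ofReal (((2 * p - 1).doubleFactorial : ℝ) * ((K * M : ℕ) : ℝ) ^ p * M /
        t ^ (2 * p)) := by
  obtain ⟨h1, h2⟩ := win_moment (M := M) hK hKe p hp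
  set F := fun g : Fin (K * M) → ℝ =>
      ((∑ k, g k • (BQ K M * TA (K * M) k * BQ K M)) ^ (2 * p)).trace with hF
  have hsym : ∀ g : Fin (K * M) → ℝ, (∑ k, g k • (BQ K M * TA (K * M) k * BQ K M)).IsSymm :=
    fun g => isSymm_sum _ (fun k => by
      rw [Matrix.IsSymm, Matrix.transpose_mul, Matrix.transpose_mul, (BQ_symm K M).eq,
        (TA_symm _ k).eq, Matrix.mul_assoc]) g
  have hsub : {g | ∃ u, BC K M u ∧ u ⬝ᵥ u = 1 ∧ t < qf (TG (K * M) g) u} ⊆
      {g | t ^ (2 * p) ≤ F g} := by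
    rintro g ⟨u, hu, hu1, htu⟩
    have e1 : ∑ k, g k • (BQ K M * TA (K * M) k * BQ K M) = BQ K M * TG (K * M) g * BQ K M := by
      rw [TG_eq, Finset.mul_sum, Finset.sum_mul]
      refine Finset.sum_congr rfl fun k _ => ?_
      rw [Matrix.mul_smul, Matrix.smul_mul]
    have e2 : qf (BQ K M * TG (K * M) g * BQ K M) u = qf (TG (K * M) g) u := by
      unfold qf
      rw [← Matrix.mulVec_mulVec, ← Matrix.mulVec_mulVec, dot_mulVec_symm _ (BQ_symm K M),
        BQ_BC hK u hu]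
    have h3 := qf_pow_le _ (hsym g) u hu1 p
    rw [e1, e2, ← e1] at h3
    exact (pow_le_pow_left₀ ht.le htu.le _).trans h3
  have hF0 : ∀ g, 0 ≤ F g := by
    intro g
    have h3 : F g = ∑ i, ((∑ k, g k • (BQ K M * TA (K * M) k * BQ K M)) ^ p).mulVec (Pi.single i 1)
        ⬝ᵥ ((∑ k, g k • (BQ K M * TA (K * M) k * BQ K M)) ^ p).mulVec (Pi.single i 1) := by
      have hs : ((∑ k, g k • (BQ K M * TA (K * M) k * BQ K M)) ^ p).IsSymm := by
        rw [Matrix.IsSymm, Matrix.transpose_pow, (hsym g).eq]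
      have : F g = (((∑ k, g k • (BQ K M * TA (K * M) k * BQ K M)) ^ p) *
        ((∑ k, g k • (BQ K M * TA (K * M) k * BQ K M)) ^ p)).trace := by
        simp only [hF]
        rw [two_mul, pow_add]
      rw [this, Matrix.trace]
      refine Finset.sum_congr rfl fun i _ => ?_
      rw [← qf_sq _ hs, qf]
      simp
    rw [h3]
    refine Finset.sum_nonneg fun i _ => ?_
    simp only [dotProduct]
    exact Finset.sum_nonneg fun i _ => mul_self_nonneg _
  have hm := mul_meas_ge_le_integral_of_nonneg (Filter.Eventually.of_forall hF0) h1 (t ^ (2 * p))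
  have htp : 0 < t ^ (2 * p) := by positivity
  refine (measure_mono hsub).trans ?_
  rw [← ENNReal.ofReal_toReal (measure_ne_top (gN (K * M)) {g | t ^ (2 * p) ≤ F g})]
  apply ENNReal.ofReal_le_ofReal
  rw [le_div_iff₀ htp, mul_comm]
  exact hm.trans h2

lemma exp_neg_le {x : ℝ} (hx : 0 < x) : Real.exp (-x) ≤ 2 / x ^ 2 := by
  have h1 := Real.quadratic_le_exp_of_nonneg hx.le
  have h2 : x ^ 2 / 2 ≤ Real.exp x := by linarith
  rw [Real.exp_neg, show 2 / x ^ 2 = (x ^ 2 / 2)⁻¹ by rw [inv_div]]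
  exact inv_anti₀ (by positivity) h2

/-- the numerical estimate -/
lemma win_num (ε : ℝ) (hε : 0 < ε) (L M : ℕ) (hM : M ≤ 2 * L ^ 3 + 1) (hL : 1 ≤ L)
    (hΛ : 432 * (6 + ε) / ε ^ 3 ≤ Real.log L) (hΛ1 : 1 ≤ Real.log L) (p : ℕ)
    (hp : p = ⌈(3 + ε / 2) * Real.log L⌉₊) (N : ℝ) (hN : 0 < N) :
    ((2 * p - 1).doubleFactorial : ℝ) * N ^ p * M / ((6 + ε) * N * Real.log L) ^ p ≤ ε := by
  set Λ := Real.log L with hΛd
  set a := (3 + ε / 2) * Λ with ha
  have ha1 : 1 ≤ a := by nlinarith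
  have hpa : a ≤ p := by rw [hp]; exact Nat.le_ceil _
  have hpa' : (p : ℝ) < a + 1 := by rw [hp]; exact Nat.ceil_lt_add_one (by linarith)
  have hp1 : 1 ≤ p := by
    have : (1 : ℝ) ≤ p := ha1.trans hpa
    exact_mod_cast this
  have h1 : ((2 * p - 1).doubleFactorial : ℝ) ≤ 2 * (p : ℝ) * (2 * (p : ℝ) / Real.exp 1) ^ p := by
    have := dfact_le (p - 1)
    rw [Nat.sub_add_cancel hp1] at this
    have e : ((p - 1 : ℕ) : ℝ) + 1 = p := by
      rw [Nat.cast_sub hp1]; push_cast; ring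
    rwa [e] at this
  have hΛ0 : 0 < Λ := by linarith
  have ha0 : 0 < a := by linarith
  have e1 : ((6 + ε) * N * Λ) ^ p = N ^ p * (2 * a) ^ p := by
    rw [← mul_pow]; congr 1; rw [ha]; ring
  have hNp : 0 < N ^ p := by positivity
  have e2 : ((2 * p - 1).doubleFactorial : ℝ) * N ^ p * M / ((6 + ε) * N * Λ) ^ p =
      ((2 * p - 1).doubleFactorial : ℝ) * M / (2 * a) ^ p := by
    rw [e1]; field_simp
  rw [e2]
  have h2 : ((p : ℝ) / a) ^ p ≤ Real.exp 2 := by
    have h3 : (p : ℝ) / a ≤ 1 + 1 / a := by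
      rw [div_le_iff₀ ha0]; field_simp; linarith
    have h4 : (p : ℝ) / a ≤ Real.exp (1 / a) := by
      have := Real.add_one_le_exp (1 / a); linarith
    calc ((p : ℝ) / a) ^ p ≤ (Real.exp (1 / a)) ^ p :=
          pow_le_pow_left₀ (by positivity) h4 _
      _ = Real.exp (p * (1 / a)) := by rw [← Real.exp_nat_mul]
      _ ≤ Real.exp 2 := by
          apply Real.exp_le_exp.2
          have : (1 : ℝ) / a ≤ 1 := by rw [div_le_one ha0]; exact ha1
          have h5 : (p : ℝ) * (1 / a) = p / a := by ring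
          rw [h5]; linarith
  have h3 : (2 * (p : ℝ) / Real.exp 1) ^ p / (2 * a) ^ p = ((p : ℝ) / a) ^ p * Real.exp (-p) := by
    rw [← div_pow]
    have : Real.exp (-(p : ℝ)) = (Real.exp (-1)) ^ p := by
      rw [← Real.exp_nat_mul]; congr 1; ring
    rw [this, ← mul_pow, Real.exp_neg]
    congr 1
    field_simp
  have hLpos : (0 : ℝ) < L := by exact_mod_cast hL
  have h4 : Real.exp (-(p : ℝ)) ≤ ((L : ℝ) ^ 3)⁻¹ * Real.exp (-(ε / 2 * Λ)) := by
    have : ((L : ℝ) ^ 3)⁻¹ = Real.exp (-(3 * Λ)) := by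
      rw [Real.exp_neg, hΛd, show (3 : ℝ) * Real.log L = ((3 : ℕ) : ℝ) * Real.log L by norm_num,
        Real.exp_nat_mul, Real.exp_log hLpos]
    rw [this, ← Real.exp_add]
    apply Real.exp_le_exp.2
    rw [ha] at hpa
    linarith
  have h5 : Real.exp (-(ε / 2 * Λ)) ≤ 2 / (ε / 2 * Λ) ^ 2 := exp_neg_le (by positivity)
  have h6 : (M : ℝ) ≤ 3 * (L : ℝ) ^ 3 := by
    have h7 : (M : ℝ) ≤ 2 * (L : ℝ) ^ 3 + 1 := by exact_mod_cast hM
    have h8 : (1 : ℝ) ≤ (L : ℝ) ^ 3 := one_le_pow₀ (by exact_mod_cast hL)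
    linarith
  have h7 : Real.exp 2 ≤ 9 := by
    have h8 : Real.exp 2 = Real.exp 1 * Real.exp 1 := by rw [← Real.exp_add]; norm_num
    have h9 := Real.exp_one_lt_d9
    have h10 := Real.exp_pos 1
    rw [h8]; nlinarith
  calc ((2 * p - 1).doubleFactorial : ℝ) * M / (2 * a) ^ p
      ≤ 2 * (p : ℝ) * (2 * (p : ℝ) / Real.exp 1) ^ p * (3 * (L : ℝ) ^ 3) / (2 * a) ^ p := by
        refine div_le_div_of_nonneg_right ?_ (by positivity)
        exact mul_le_mul h1 h6 (Nat.cast_nonneg _) (by positivity)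
    _ = 6 * (p : ℝ) * (L : ℝ) ^ 3 * ((2 * (p : ℝ) / Real.exp 1) ^ p / (2 * a) ^ p) := by ring
    _ = 6 * (p : ℝ) * (L : ℝ) ^ 3 * (((p : ℝ) / a) ^ p * Real.exp (-p)) := by rw [h3]
    _ ≤ 6 * (2 * a) * (L : ℝ) ^ 3 * (9 * (((L : ℝ) ^ 3)⁻¹ * (2 / (ε / 2 * Λ) ^ 2))) := by
        have hx : ((p : ℝ) / a) ^ p * Real.exp (-p) ≤
            9 * (((L : ℝ) ^ 3)⁻¹ * (2 / (ε / 2 * Λ) ^ 2)) := by
          refine mul_le_mul (h2.trans h7) (h4.trans ?_) (Real.exp_pos _).le (by norm_num)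
          exact mul_le_mul_of_nonneg_left h5 (by positivity)
        refine mul_le_mul ?_ hx (by positivity) (by positivity)
        refine mul_le_mul_of_nonneg_right ?_ (by positivity)
        linarith
    _ = 432 * (6 + ε) / (ε ^ 2 * Λ) := by
        rw [ha]
        field_simp
        ring
    _ ≤ ε := by
        rw [div_le_iff₀ (by positivity)]
        rw [div_le_iff₀ (by positivity)] at hΛ
        linarith [hΛ, show Λ * ε ^ 3 = ε * (ε ^ 2 * Λ) by ring]

theorem s_WIN : S_WIN := by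
  intro ε hε
  have hlog : Tendsto (fun L : ℕ => Real.log L) atTop atTop :=
    Real.tendsto_log_atTop.comp tendsto_natCast_atTop_atTop
  filter_upwards [hlog.eventually_ge_atTop (432 * (6 + ε) / ε ^ 3), hlog.eventually_ge_atTop 1,
    eventually_ge_atTop 1] with L h1 h2 h3 M hM1 hM2
  set p := ⌈(3 + ε / 2) * Real.log L⌉₊ with hp
  have hp0 : 0 < p := Nat.ceil_pos.2 (by positivity)
  have hK : 0 < 2 * L ^ 2 := by positivity
  have hMpos : 0 < M := lt_of_lt_of_le (by positivity) hM1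
  have hNpos : (0 : ℝ) < (2 * L ^ 2 * M : ℕ) := by
    have : 0 < 2 * L ^ 2 * M := Nat.mul_pos hK hMpos
    exact_mod_cast this
  have ht : 0 < √((6 + ε) * (2 * L ^ 2 * M : ℕ) * Real.log L) := by
    apply Real.sqrt_pos.2
    positivity
  have hprob := win_prob (K := 2 * L ^ 2) (M := M) hK ⟨L ^ 2, by ring⟩ p hp0 _ ht
  refine hprob.trans (ENNReal.ofReal_le_ofReal ?_)
  rw [pow_mul, Real.sq_sqrt (by positivity)]
  exact win_num ε hε L M hM2 h3 h1 h2 p hp _ hNpos

end Pool.Agent.K7.H98.TP
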