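import Pool.Agent.K7.H98.TP.Mom

/-!
MP_0d5435_pr: the Toeplitz structure, sum of the squares of the elementary Toeplitz matrices.
-/

set_option autoImplicit false

open MeasureTheory ProbabilityTheory Filter Topology Matrix
open Pool.Agent.K7.H95.TP

namespace Pool.Agent.K7.H98.TP

/-- the elementary Toeplitz matrices -/
def TA (N : ℕ) (k : Fin N) : Matrix (Fin N) (Fin N) ℝ :=
  Matrix.of fun i j => if Int.natAbs ((i : ℤ) - (j : ℤ)) = (k : ℕ) then 1 else 0

lemma TA_symm (N : ℕ) (k : Fin N) : (TA N k).IsSymm := by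
  refine Matrix.IsSymm.ext fun i j => ?_
  simp only [TA, Matrix.of_apply]
  rw [← Int.natAbs_neg, neg_sub]

lemma natAbs_lt {N : ℕ} (i j : Fin N) : Int.natAbs ((i : ℤ) - (j : ℤ)) < N := by
  have := i.2; have := j.2; omega

lemma TG_eq (N : ℕ) (g : Fin N → ℝ) : TG N g = ∑ k, g k • TA N k := by
  refine Matrix.ext fun i j => ?_
  rw [Matrix.sum_apply, Finset.sum_eq_single ⟨_, natAbs_lt i j⟩]
  · simp [TG, Tz, xt, TA, natAbs_lt i j]
  · intro k _ hk
    have : ¬ Int.natAbs ((i : ℤ) - (j : ℤ)) = (k : ℕ) := fun h => hk (Fin.ext h.symm)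
    simp [TA, this]
  · intro h; exact absurd (Finset.mem_univ _) h

lemma TA_sq_entry (N : ℕ) (i j : Fin N) : (∑ k, TA N k * TA N k) i j =
    (if i = j then (N : ℝ) - 1 else 0) + (1 + (-1) ^ (i : ℕ) * (-1) ^ (j : ℕ)) / 2 := by
  have h1 : (∑ k, TA N k * TA N k) i j =
      ∑ l : Fin N, if Int.natAbs ((i : ℤ) - (l : ℤ)) = Int.natAbs ((l : ℤ) - (j : ℤ))
        then (1 : ℝ) else 0 := by
    rw [Matrix.sum_apply]
    simp only [Matrix.mul_apply]
    rw [Finset.sum_comm]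
    refine Finset.sum_congr rfl fun l _ => ?_
    rw [Finset.sum_eq_single ⟨_, natAbs_lt i l⟩]
    · simp [TA, eq_comm]
    · intro k _ hk
      have : ¬ Int.natAbs ((i : ℤ) - (l : ℤ)) = (k : ℕ) := fun h => hk (Fin.ext h.symm)
      simp [TA, this]
    · intro h; exact absurd (Finset.mem_univ _) h
  rw [h1]
  by_cases hij : i = j
  · subst hij
    have : ∀ l : Fin N, Int.natAbs ((i : ℤ) - (l : ℤ)) = Int.natAbs ((l : ℤ) - (i : ℤ)) := by
      intro l; omega
    simp only [this, if_true, Finset.sum_const, Finset.card_univ, Fintype.card_fin,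
      nsmul_eq_mul, mul_one]
    rw [← mul_pow]
    norm_num
  · rw [if_neg hij]
    have hne : (i : ℕ) ≠ (j : ℕ) := fun h => hij (Fin.ext h)
    have hi := i.2
    have hj := j.2
    rcases Nat.even_or_odd ((i : ℕ) + (j : ℕ)) with he | ho
    · obtain ⟨c, hc⟩ := he
      have hcN : c < N := by omega
      rw [Finset.sum_eq_single (⟨c, hcN⟩ : Fin N)]
      · rw [if_pos (by simp only; omega), ← pow_add, hc, ← two_mul, pow_mul]
        norm_num
      · intro l _ hl
        have : (l : ℕ) ≠ c := fun h => hl (Fin.ext h)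
        rw [if_neg (by omega)]
      · intro h; exact absurd (Finset.mem_univ _) h
    · obtain ⟨c, hc⟩ := ho
      rw [Finset.sum_eq_zero]
      · rw [← pow_add, hc, pow_succ, pow_mul]
        norm_num
      · intro l _
        rw [if_neg (by omega)]

lemma qf_TA (N : ℕ) (u : Fin N → ℝ) : qf (∑ k, TA N k * TA N k) u =
    ((N : ℝ) - 1) * (u ⬝ᵥ u) + ((∑ i, u i) ^ 2 + (∑ i : Fin N, (-1) ^ (i : ℕ) * u i) ^ 2) / 2 := by
  unfold qf
  simp only [dotProduct, Matrix.mulVec]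
  have h1 : ∀ i : Fin N, ∑ j, (∑ k, TA N k * TA N k) i j * u j =
      ((N : ℝ) - 1) * u i + ((∑ j, u j) + (-1) ^ (i : ℕ) * ∑ j : Fin N, (-1) ^ (j : ℕ) * u j) / 2 := by
    intro i
    have : ∀ j, (∑ k, TA N k * TA N k) i j * u j = (if i = j then ((N : ℝ) - 1) * u j else 0) +
        (1 / 2 * u j + 1 / 2 * ((-1) ^ (i : ℕ) * ((-1) ^ (j : ℕ) * u j))) := by
      intro j
      rw [TA_sq_entry]
      split_ifs <;> ring
    simp only [this]
    rw [Finset.sum_add_distrib, Finset.sum_add_distrib, Finset.sum_ite_eq, if_pos (Finset.mem_univ i),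
      ← Finset.mul_sum, ← Finset.mul_sum, ← Finset.mul_sum]
    ring
  simp only [h1]
  have h2 : ∀ i : Fin N, u i * (((N : ℝ) - 1) * u i +
      ((∑ j, u j) + (-1) ^ (i : ℕ) * ∑ j : Fin N, (-1) ^ (j : ℕ) * u j) / 2) =
      ((N : ℝ) - 1) * (u i * u i) + ((∑ j, u j) / 2 * u i +
        (∑ j : Fin N, (-1) ^ (j : ℕ) * u j) / 2 * ((-1) ^ (i : ℕ) * u i)) := by
    intro i; ring
  simp only [h2]
  rw [Finset.sum_add_distrib, Finset.sum_add_distrib, ← Finset.mul_sum, ← Finset.mul_sum,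
    ← Finset.mul_sum]
  ring

/-! ### quadratic forms -/

lemma dot_mulVec_symm {n : ℕ} (T : Matrix (Fin n) (Fin n) ℝ) (hT : T.IsSymm) (u w : Fin n → ℝ) :
    u ⬝ᵥ T.mulVec w = T.mulVec u ⬝ᵥ w := by
  rw [Matrix.dotProduct_mulVec, ← Matrix.mulVec_transpose, hT.eq]

lemma qf_sq {n : ℕ} (T : Matrix (Fin n) (Fin n) ℝ) (hT : T.IsSymm) (u : Fin n → ℝ) :
    qf (T * T) u = T.mulVec u ⬝ᵥ T.mulVec u := by
  unfold qf
  rw [← Matrix.mulVec_mulVec, dot_mulVec_symm T hT]

lemma qf_sum {n m : ℕ} (B : Fin m → Matrix (Fin n) (Fin n) ℝ) (u : Fin n → ℝ) :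
    qf (∑ k, B k) u = ∑ k, qf (B k) u := by
  unfold qf
  rw [Matrix.sum_mulVec, dotProduct_sum]

lemma proj_le {n : ℕ} (Q : Matrix (Fin n) (Fin n) ℝ) (hQ : Q.IsSymm) (hQQ : Q * Q = Q)
    (w : Fin n → ℝ) : Q.mulVec w ⬝ᵥ Q.mulVec w ≤ w ⬝ᵥ w := by
  have h1 : Q.mulVec w ⬝ᵥ Q.mulVec w = w ⬝ᵥ Q.mulVec w := by
    rw [← qf_sq Q hQ, hQQ]; rfl
  have h2 : 0 ≤ (w - Q.mulVec w) ⬝ᵥ (w - Q.mulVec w) := by
    simp only [dotProduct]
    exact Finset.sum_nonneg fun i _ => mul_self_nonneg _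
  rw [sub_dotProduct, dotProduct_sub, dotProduct_sub, dotProduct_comm (Q.mulVec w) w, ← h1] at h2
  linarith

/-- compressions of the squares -/
lemma qf_compress {n m : ℕ} (A : Fin m → Matrix (Fin n) (Fin n) ℝ) (hA : ∀ k, (A k).IsSymm)
    (Q : Matrix (Fin n) (Fin n) ℝ) (hQ : Q.IsSymm) (hQQ : Q * Q = Q) (u : Fin n → ℝ) :
    qf (∑ k, (Q * A k * Q) * (Q * A k * Q)) u ≤ qf (∑ k, A k * A k) (Q.mulVec u) := by
  rw [qf_sum, qf_sum]
  refine Finset.sum_le_sum fun k _ => ?_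
  have hs : (Q * A k * Q).IsSymm := by
    rw [Matrix.IsSymm, Matrix.transpose_mul, Matrix.transpose_mul, hQ.eq, (hA k).eq,
      Matrix.mul_assoc]
  rw [qf_sq _ hs, qf_sq _ (hA k), Matrix.mul_assoc, ← Matrix.mulVec_mulVec,
    ← Matrix.mulVec_mulVec]
  exact proj_le Q hQ hQQ _

/-- quadratic forms and trace moments -/
lemma qf_pow_le {n : ℕ} (X : Matrix (Fin n) (Fin n) ℝ) (hX : X.IsSymm) (u : Fin n → ℝ)
    (hu : u ⬝ᵥ u = 1) (p : ℕ) : (qf X u) ^ (2 * p) ≤ (X ^ (2 * p)).trace := by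
  obtain ⟨V, d, h1, h2, rfl⟩ := exists_diag X hX
  set y := Vᵀ.mulVec u with hy
  have e1 : qf (V * diagonal d * Vᵀ) u = ∑ i, y i ^ 2 * d i := by
    unfold qf
    rw [← Matrix.mulVec_mulVec, ← Matrix.mulVec_mulVec, Matrix.dotProduct_mulVec,
      ← Matrix.mulVec_transpose, ← hy]
    simp only [dotProduct, Matrix.mulVec_diagonal]
    exact Finset.sum_congr rfl fun i _ => by ring
  have e2 : ∑ i, y i ^ 2 = 1 := by
    have : y ⬝ᵥ y = 1 := by
      rw [← hu]
      nth_rewrite 1 [hy]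
      rw [← dotProduct_comm, Matrix.dotProduct_mulVec, ← Matrix.mulVec_transpose,
        Matrix.transpose_transpose, hy, Matrix.mulVec_mulVec, h1, Matrix.one_mulVec]
    rw [← this]
    simp only [dotProduct]
    exact Finset.sum_congr rfl fun i _ => by ring
  have e3 : ((V * diagonal d * Vᵀ) ^ (2 * p)).trace = ∑ i, d i ^ (2 * p) := by
    rw [diag_pow V d h1 h2, Matrix.trace_mul_comm, ← Matrix.mul_assoc, h2, Matrix.one_mul,
      Matrix.trace_diagonal]
  rw [e1, e3]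
  refine (Real.pow_arith_mean_le_arith_mean_pow_of_even Finset.univ (fun i => y i ^ 2) d
    (fun i _ => sq_nonneg _) e2 (even_two_mul p)).trans ?_
  refine Finset.sum_le_sum fun i _ => ?_
  have h5 : y i ^ 2 ≤ 1 := by
    rw [← e2]
    exact Finset.single_le_sum (f := fun i => y i ^ 2) (fun j _ => sq_nonneg _) (Finset.mem_univ i)
  have h6 : 0 ≤ d i ^ (2 * p) := by rw [pow_mul]; positivity
  nlinarith

/-- double factorials -/
lemma dfact_le (p : ℕ) : ((2 * (p + 1) - 1).doubleFactorial : ℝ) ≤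
    2 * ((p : ℝ) + 1) * ((2 * ((p : ℝ) + 1)) / Real.exp 1) ^ (p + 1) := by
  induction p with
  | zero =>
    have : Real.exp 1 ≤ 4 := by
      have := Real.exp_one_lt_d9; linarith
    have h0 : (0 : ℝ) < Real.exp 1 := Real.exp_pos 1
    simp only [zero_add, mul_one, Nat.cast_zero, pow_one]
    norm_num
    rw [← mul_div_assoc, le_div_iff₀ h0]
    linarith
  | succ p ih =>
    have e2 : (2 * (p + 1 + 1) - 1).doubleFactorial =
        (2 * (p + 1) + 1) * (2 * (p + 1) - 1).doubleFactorial := by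
      have : 2 * (p + 1 + 1) - 1 = (2 * (p + 1) - 1) + 2 := by omega
      rw [this, Nat.doubleFactorial_add_two]
      rw [show 2 * (p + 1) - 1 + 2 = 2 * (p + 1) + 1 by omega]
    rw [e2]
    push_cast
    set x : ℝ := (p : ℝ) + 1 with hx
    have hx0 : 0 < x := by positivity
    have h0 : (0 : ℝ) < Real.exp 1 := Real.exp_pos 1
    have h3 : (2 * x + 1) * ((2 * (p + 1) - 1).doubleFactorial : ℝ) ≤
        (2 * x + 1) * (2 * x * (2 * x / Real.exp 1) ^ (p + 1)) :=
      mul_le_mul_of_nonneg_left ih (by positivity)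
    refine h3.trans ?_
    -- (x/(x+1))^(p+2) ≤ e⁻¹
    have h4 : (x / (x + 1)) ^ (p + 2) ≤ (Real.exp 1)⁻¹ := by
      have h5 := Real.one_sub_div_pow_le_exp_neg (n := p + 2) (t := 1) (by
        push_cast; linarith [Nat.cast_nonneg (α := ℝ) p])
      rw [Real.exp_neg] at h5
      refine le_trans (le_of_eq ?_) h5
      congr 1
      push_cast
      have : (p : ℝ) + 2 ≠ 0 := by positivity
      rw [show x + 1 = (p : ℝ) + 2 by rw [hx]; ring, hx]
      field_simp
      ring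
    have h6 : (2 * x / Real.exp 1) ^ (p + 1) =
        (2 * (x + 1) / Real.exp 1) ^ (p + 1) * (x / (x + 1)) ^ (p + 1) := by
      rw [← mul_pow]
      congr 1
      field_simp
    have h7 : (x / (x + 1)) ^ (p + 2) = (x / (x + 1)) ^ (p + 1) * (x / (x + 1)) := pow_succ _ _
    have h8 : (x / (x + 1)) ^ (p + 1) * x ≤ (Real.exp 1)⁻¹ * (x + 1) := by
      rw [h7] at h4
      have : (x / (x + 1)) ^ (p + 1) * (x / (x + 1)) * (x + 1) ≤ (Real.exp 1)⁻¹ * (x + 1) :=
        mul_le_mul_of_nonneg_right h4 (by positivity)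
      refine le_trans (le_of_eq ?_) this
      field_simp
    set F := (2 * (x + 1) / Real.exp 1) ^ (p + 1) with hF
    have hF0 : 0 ≤ F := by positivity
    rw [h6, show (2 * (x + 1) / Real.exp 1) ^ (p + 1 + 1) = F * (2 * (x + 1) / Real.exp 1) from
      pow_succ _ _]
    have h9 : (2 * x + 1) * (2 * x * (F * (x / (x + 1)) ^ (p + 1))) =
        2 * (2 * x + 1) * F * ((x / (x + 1)) ^ (p + 1) * x) := by ring
    rw [h9]
    calc 2 * (2 * x + 1) * F * ((x / (x + 1)) ^ (p + 1) * x)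
        ≤ 2 * (2 * x + 1) * F * ((Real.exp 1)⁻¹ * (x + 1)) :=
          mul_le_mul_of_nonneg_left h8 (by positivity)
      _ ≤ 2 * (2 * (x + 1)) * F * ((Real.exp 1)⁻¹ * (x + 1)) := by
          refine mul_le_mul_of_nonneg_right ?_ (by positivity)
          refine mul_le_mul_of_nonneg_right ?_ hF0
          linarith
      _ = 2 * (x + 1) * (F * (2 * (x + 1) / Real.exp 1)) := by
          field_simp

end Pool.Agent.K7.H98.TP
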